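import Mathlib

namespace Pool.Agent.Results.MP_4b5396_lc.Linear

/-- Closed axis-parallel hypercube with lowest corner `a` and side `s ≥ 0`. -/
structure Cube (d : ℕ) : Type where
  a : Fin d → ℝ
  s : ℝ
  hs : 0 ≤ s

def Cube.pts {d : ℕ} (o : Cube d) : Set (Fin d → ℝ) := Set.Icc o.a fun j => o.a j + o.s

/-- Rooted trees with all leaves at depth `h`; leaves store objects. -/
inductive RT (d : ℕ) : ℕ → Type
  | leaf (l : Multiset (Cube d)) : RT d 0
  | node {h : ℕ} (k : ℕ) (ch : Fin k → RT d h) : RT d (h+1)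

/-- The objects stored below a node, with multiplicity. -/
def objs {d : ℕ} : {h : ℕ} → RT d h → Multiset (Cube d)
  | _, .leaf l => l
  | _, .node _ ch => ∑ i, objs (ch i)

/-- Every node has at most `hi` entries (objects or children), and at least `lo` entries
unless it is the root (`root = true`). -/
def Shape {d : ℕ} (lo hi : ℝ) : {h : ℕ} → Bool → RT d h → Prop
  | _, root, .leaf l => (root = false → lo ≤ l.card) ∧ (l.card : ℝ) ≤ hi
  | _, root, .node k ch => (root = false → lo ≤ k) ∧ (k : ℝ) ≤ hi ∧ ∀ i, Shape lo hi false (ch i)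

/-- Minimal axis-parallel bounding box: the intersection of all boxes containing the objects. -/
def bbox {d h : ℕ} (T : RT d h) : Set (Fin d → ℝ) :=
  ⋂₀ {R | (∃ p q, R = Set.Icc p q) ∧ ∀ o ∈ objs T, o.pts ⊆ R}

open Classical in
/-- Number of nodes visited by the aggregation query `Q`. -/
noncomputable def cost {d : ℕ} (Q : Set (Fin d → ℝ)) : {h : ℕ} → RT d h → ℕ
  | _, .leaf _ => 1
  | _, .node _ ch => 1 + ∑ i,
      if bbox (ch i) ∩ Q = ∅ ∨ bbox (ch i) ⊆ Q then 0 else cost Q (ch i)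

theorem key {d : ℕ} (hd : 1 ≤ d) {lo hi : ℝ} (hhi : 0 ≤ hi) : ∀ {h : ℕ} (b : Bool) (T : RT d h),
    Shape lo hi b T → (∀ o ∈ objs T, Set.Icc (fun _ => -2) (fun _ => 2) ⊆ o.pts) →
    ((objs T).card : ℝ) ≤ hi * cost (Set.Icc (fun _ => -1) (fun _ => 1)) T
  | _, _, .leaf l, hS, _ => by simpa [objs, cost] using hS.2
  | _, _, .node k ch, hS, ho => by
    classical
    simp only [objs, cost, Multiset.card_sum, Nat.cast_sum, Nat.cast_add, Nat.cast_one, mul_add,
      Finset.mul_sum]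
    refine le_trans (Finset.sum_le_sum fun i _ => ?_) (le_add_of_nonneg_left (by simpa using hhi))
    have ho' : ∀ o ∈ objs (ch i), Set.Icc (fun _ => -2) (fun _ => 2) ⊆ o.pts := fun o h =>
      ho o (Multiset.mem_sum.2 ⟨i, Finset.mem_univ _, h⟩)
    rcases Multiset.empty_or_exists_mem (objs (ch i)) with h0 | ⟨o, h0⟩
    · rw [h0, Multiset.card_zero, Nat.cast_zero]; exact mul_nonneg hhi (Nat.cast_nonneg _)
    have hb : Set.Icc (fun _ => -2) (fun _ => 2) ⊆ bbox (ch i) := fun x hx =>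
      Set.mem_sInter.2 fun R hR => hR.2 o h0 (ho' o h0 hx)
    rw [if_neg]
    · exact key hd hhi false (ch i) (hS.2.2 i) ho'
    · rintro (h | h)
      · have : (fun _ => 0) ∈ bbox (ch i) ∩ Set.Icc (fun _ => -1) (fun _ => 1) :=
          ⟨hb ⟨fun _ => by norm_num, fun _ => by norm_num⟩,
            fun _ => by norm_num, fun _ => by norm_num⟩
        rw [h] at this
        exact this
      · have := (h (hb (show (fun _ => 2) ∈ _ from
          ⟨fun _ => by norm_num, fun _ => le_rfl⟩))).2 ⟨0, hd⟩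
        norm_num at this

def cube (d i : ℕ) : Cube d := ⟨fun _ => -2, 4 + i, by positivity⟩

theorem result (d : ℕ) (hd : 1 ≤ d) (c₁ c₂ : ℝ) (hc : 0 < c₂) (C : ℝ) (B : ℕ) (hB : 1 ≤ B) :
    ∃ N₀ : ℕ, ∀ N ≥ N₀, ∃ S : Finset (Cube d), S.card = N ∧ ∃ p q : Fin d → ℝ,
      (∀ j, p j < q j) ∧ ∀ (h : ℕ) (T : RT d h), objs T = S.val →
        Shape (c₁ * B) (c₂ * B) true T →
        (N : ℝ) / B ≤ c₂ * cost (Set.Icc p q) T ∧
          C * ((N : ℝ) / B) ^ (1 - 1 / (d : ℝ)) < cost (Set.Icc p q) T := by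
  classical
  obtain ⟨M, hM⟩ := exists_nat_gt ((|C| * c₂ + 1) ^ d * B)
  have hB' : (0 : ℝ) < B := by exact_mod_cast hB
  refine ⟨M, fun N hN => ⟨(Finset.range N).map ⟨cube d, fun i j h => ?_⟩, by simp,
    fun _ => -1, fun _ => 1, fun _ => by norm_num, fun h T hT hS => ?_⟩⟩
  · have := congrArg Cube.s h
    simpa [cube] using this
  have h1 := key hd (by positivity) true T hS (fun o ho => by
    rw [hT, Finset.mem_val, Finset.mem_map] at ho
    obtain ⟨i, _, rfl⟩ := ho
    exact Set.Icc_subset_Icc le_rfl fun _ => by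
      have : (0 : ℝ) ≤ i := Nat.cast_nonneg _
      show (2 : ℝ) ≤ -2 + (4 + i)
      linarith)
  rw [hT] at h1
  simp only [Finset.card_val, Finset.card_map, Finset.card_range] at h1
  generalize (cost (Set.Icc (fun _ : Fin d => (-1 : ℝ)) fun _ => 1) T : ℝ) = t at h1 ⊢
  have h2 : (N : ℝ) / B ≤ c₂ * t := by rw [div_le_iff₀ hB']; linarith
  refine ⟨h2, ?_⟩
  have hx : (|C| * c₂ + 1) ^ d < (N : ℝ) / B := by
    rw [lt_div_iff₀ hB']
    exact hM.trans_le (by exact_mod_cast hN)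
  generalize (N : ℝ) / B = x at h2 hx
  have hy : 0 < |C| * c₂ + 1 := by positivity
  have hx0 : 0 < x := (pow_pos hy d).trans hx
  have h3 : |C| * c₂ + 1 < x ^ (1 / (d : ℝ)) := by
    rw [one_div, Real.lt_rpow_inv_iff_of_pos hy.le hx0.le (by exact_mod_cast hd),
      Real.rpow_natCast]
    exact hx
  have h4 : x ^ (1 - 1 / (d : ℝ)) * x ^ (1 / (d : ℝ)) = x := by
    rw [← Real.rpow_add hx0]; simp
  have h5 : 0 < x ^ (1 - 1 / (d : ℝ)) := Real.rpow_pos_of_pos hx0 _
  have h6 := mul_lt_mul_of_pos_left h3 h5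
  have h7 := mul_le_mul_of_nonneg_right (le_abs_self C) (mul_pos h5 hc).le
  refine lt_of_mul_lt_mul_left (a := c₂) ?_ hc.le
  nlinarith

end Pool.Agent.Results.MP_4b5396_lc.Linear
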